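import Pool.Agent.Results.MP_d3e5c7_ag.SeparatedOrbits

/-!
# Negative curves on the plane blown up at very general points: none, or at least `c x ^ 4` of degree at most `x`

For every `s ≥ 4` the set `E s` of the classes `(d; w)` of the irreducible curves `C` with `C ^ 2 < 0` other than
`(-1)`-curves is the same for all very general configurations of `s` points. If it is not empty, then for every
element `c₀` there are at least `(x / A) ^ 4` elements `c` of degree at most `x` with the same `c ^ 2` and `K c`, for all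
`x ≥ A = A(c₀)`. So Q1 for `s` points holds if and only if the number of the exceptional classes of degree at most
`x` is `o(x ^ 4)` along some sequence.

Proof. For nine of the points let `K` be their canonical class and `N = - K c₀ > 0` (`SeparatedOrbits`). The translations
of the affine Weyl group of the nine points carry `c₀` to the classes `c₀ + N β + q(β) (- K)`, with `β` in the lattice of
the `∑ v i E i`, `∑ v i = 0`, of rank 8, of degree `O(|β| ^ 2)`, and they are classes of irreducible curves at the same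
points.
-/

set_option autoImplicit false

namespace Pool.Agent.Results.MP_d3e5c7_ag.ZeroOrManyCurves

open MvPolynomial Pool.Agent.TH167 Pool.Agent.TH167.SHDefs Pool.Agent.R355.NegOrb
open Pool.Agent.W609.CR (Ord aff)
open Pool.Agent.TH442.NF (cls refl Step refl_cls)
open SeparatedOrbits (reflect Move Carries dot toCls comb V V_at V_off sum_V translate irr_perm nine_pos)

theorem carry_irr' {s : ℕ} {P : Fin s → Fin 2 → ℂ}
    (hP : AlgebraicIndependent ℚ (fun ij : Fin s × Fin 2 => P ij.1 ij.2)) {d : ℕ}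
    {w : Fin s → ℕ} (h : Irr P d w) {b : ℤ × (Fin s → ℤ)} (hb : Carries (toCls d w) b) :
    ∃ (e : ℕ) (u : Fin s → ℕ), b = toCls e u ∧ Irr P e u ∧ SH.ip e u e u = SH.ip d w d w ∧
      SH.kk e u = SH.kk d w := by
  unfold Carries at hb
  induction hb with
  | refl => exact ⟨d, w, rfl, h, rfl, rfl⟩
  | @tail b c _ hbc ih =>
    obtain ⟨e, u, rfl, h1, h2, h3⟩ := ih
    rcases hbc with ⟨i, hi, rfl⟩ | ⟨σ, rfl⟩
    · have p := h1.ps hP hi
      refine ⟨SH.cd i e u, Pool.Agent.W609.CR.wcr e i u, refl_cls hi p, h1.step hP hi, ?_, ?_⟩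
      · rw [SH.ip_cr hi p p, h2]
      · rw [SH.kk_cr hi p, h3]
    · refine ⟨e, fun l => u (σ l), rfl, irr_perm hP h1 σ, ?_, ?_⟩
      · rw [← h2]
        unfold SH.ip
        rw [Equiv.sum_comp σ (fun l => (u l : ℤ) * u l)]
      · rw [← h3]
        unfold SH.kk
        rw [Equiv.sum_comp σ (fun l => (u l : ℤ))]

theorem V_comp {s : ℕ} (ν : Fin 9 → Fin s) (σ : Equiv.Perm (Fin 9)) (v : Fin 9 → ℤ) (l : Fin s) :
    V (ν ∘ σ) (v ∘ σ) l = V ν v l := by
  unfold V
  exact Equiv.sum_comp σ (fun k => if l = ν k then v k else 0)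

theorem V_add {s : ℕ} (ν : Fin 9 → Fin s) (v v' : Fin 9 → ℤ) (l : Fin s) :
    V ν (fun k => v k + v' k) l = V ν v l + V ν v' l := by
  unfold V
  rw [← Finset.sum_add_distrib]
  refine Finset.sum_congr rfl fun k _ => ?_
  split_ifs <;> simp

/-- one translation, in the direction of `E i - E j` -/
theorem one_step {s : ℕ} {ν : Fin 9 → Fin s} (hν : Function.Injective ν) (y : ℤ × (Fin s → ℤ)) {N : ℤ}
    (hN : N = 3 * y.1 - ∑ k, y.2 (ν k)) {i j : Fin 9} (hij : i ≠ j) :
    Carries y (comb (comb y N (0, V ν (fun k => (if k = j then 1 else 0) - if k = i then 1 else 0)))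
      (N - (y.2 (ν i) - y.2 (ν j))) (3, V ν fun _ => 1)) := by
  obtain ⟨σ, h0, h1⟩ : ∃ σ : Equiv.Perm (Fin 9), σ 0 = i ∧ σ 1 = j := by
    refine ⟨(Equiv.swap 0 i).trans (Equiv.swap ((Equiv.swap 0 i) 1) j), ?_, ?_⟩
    · rw [Equiv.trans_apply, Equiv.swap_apply_left]
      refine Equiv.swap_apply_of_ne_of_ne ?_ hij
      intro h
      have h2 : (Equiv.swap 0 i) 0 = i := Equiv.swap_apply_left _ _
      exact absurd ((Equiv.swap (0 : Fin 9) i).injective (h2.trans h)) (by decide)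
    · rw [Equiv.trans_apply, Equiv.swap_apply_left]
  have hN' : N = 3 * y.1 - ∑ k, y.2 ((ν ∘ σ) k) := by
    rw [hN]
    congr 1
    exact (Equiv.sum_comp σ (fun k => y.2 (ν k))).symm
  have h := translate (hν.comp σ.injective) y (N := N) hN' rfl 1
  have e1 : (V (ν ∘ σ) ![-1, 1, 0, 0, 0, 0, 0, 0, 0] : Fin s → ℤ) =
      V ν (fun k => (if k = j then 1 else 0) - if k = i then 1 else 0) := by
    funext l
    rw [← V_comp ν σ]
    congr 1
    funext k
    simp only [Function.comp_apply, ← h0, ← h1, σ.injective.eq_iff]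
    fin_cases k <;> simp
  have e2 : (V (ν ∘ σ) (fun _ => 1) : Fin s → ℤ) = V ν fun _ => 1 := by
    funext l
    rw [← V_comp ν σ]
    rfl
  rw [e1, e2] at h
  have e3 : (((1 : ℕ) : ℤ) * N) = N := by push_cast; ring
  have e4 : (((1 : ℕ) : ℤ) ^ 2 * N - ((1 : ℕ) : ℤ) * (y.2 ((ν ∘ σ) 0) - y.2 ((ν ∘ σ) 1))) =
      N - (y.2 (ν i) - y.2 (ν j)) := by
    rw [Function.comp_apply, Function.comp_apply, h0, h1]
    push_cast
    ring
  rw [e3, e4] at h
  exact h

/-- the lattice of the translations -/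
theorem lattice {s : ℕ} {ν : Fin 9 → Fin s} (hν : Function.Injective ν) (x : ℤ × (Fin s → ℤ)) {N : ℤ}
    (hN : N = 3 * x.1 - ∑ k, x.2 (ν k)) : ∀ (n : ℕ) (v : Fin 9 → ℤ), ∑ k, v k = 0 →
      ∑ k, (v k).natAbs ≤ n → ∃ q : ℤ, 2 * q = ∑ k, (2 * x.2 (ν k) * v k + N * v k ^ 2) ∧
        Carries x (comb (comb x N (0, V ν v)) q (3, V ν fun _ => 1)) := by
  intro n
  induction n with
  | zero =>
    intro v _ hv
    have h0 : ∀ k, v k = 0 := by
      intro k
      have h1 : (v k).natAbs ≤ ∑ k, (v k).natAbs :=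
        Finset.single_le_sum (f := fun k => (v k).natAbs) (fun _ _ => Nat.zero_le _)
          (Finset.mem_univ k)
      omega
    refine ⟨0, by simp [h0], ?_⟩
    have e : comb (comb x N (0, V ν v)) 0 (3, V ν fun _ => 1) = x := by
      unfold comb V
      refine Prod.ext (by simp) ?_
      funext l
      simp [h0]
    rw [e]
    exact Relation.ReflTransGen.refl
  | succ n ih =>
    intro v hs hv
    by_cases hall : ∀ k, v k = 0
    · exact ih v hs (by simp [hall])
    push Not at hall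
    obtain ⟨k₀, hk₀⟩ := hall
    obtain ⟨j, -, hj⟩ := Finset.exists_pos_of_sum_zero_of_exists_nonzero v hs
      ⟨k₀, Finset.mem_univ _, hk₀⟩
    obtain ⟨i, -, hi⟩ := Finset.exists_pos_of_sum_zero_of_exists_nonzero (fun k => -v k)
      (by rw [Finset.sum_neg_distrib, hs, neg_zero]) ⟨k₀, Finset.mem_univ _, by simpa using hk₀⟩
    have hi' : v i < 0 := by linarith
    have hij : i ≠ j := by
      rintro rfl
      linarith
    obtain ⟨t, ht⟩ : ∃ t : Fin 9 → ℤ, t = fun k => (if k = j then 1 else 0) - if k = i then 1 else 0 :=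
      ⟨_, rfl⟩
    obtain ⟨v', hv'⟩ : ∃ v' : Fin 9 → ℤ, v' = fun k => v k - t k := ⟨_, rfl⟩
    have ht0 : ∑ k, t k = 0 := by
      rw [ht, Finset.sum_sub_distrib, Finset.sum_ite_eq' Finset.univ j (fun _ => (1 : ℤ)),
        Finset.sum_ite_eq' Finset.univ i (fun _ => (1 : ℤ))]
      simp
    have hs' : ∑ k, v' k = 0 := by
      rw [hv', Finset.sum_sub_distrib, hs, ht0, sub_zero]
    have habs : ∑ k, (v' k).natAbs < ∑ k, (v k).natAbs := by
      refine Finset.sum_lt_sum (fun k _ => ?_) ⟨j, Finset.mem_univ _, ?_⟩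
      · rw [hv', ht]
        simp only
        by_cases h1 : k = j
        · subst h1
          rw [if_pos rfl, if_neg (Ne.symm hij)]
          omega
        · by_cases h2 : k = i
          · subst h2
            rw [if_neg h1, if_pos rfl]
            omega
          · rw [if_neg h1, if_neg h2]
            simp
      · have e1 : v' j = v j - 1 := by
          have e2 : j ≠ i := Ne.symm hij
          simp [hv', ht, e2]
        rw [e1]
        omega
    obtain ⟨q, hq, hc⟩ := ih v' hs' (by omega)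
    obtain ⟨y, hy⟩ : ∃ y, y = comb (comb x N (0, V ν v')) q (3, V ν fun _ => 1) := ⟨_, rfl⟩
    have hy1 : y.1 = x.1 + 3 * q := by
      rw [hy]
      unfold comb
      simp only
      ring
    have hy2 : ∀ k, y.2 (ν k) = x.2 (ν k) + N * v' k + q := by
      intro k
      rw [hy]
      unfold comb
      simp only
      rw [V_at hν, V_at hν]
      ring
    have hNy : N = 3 * y.1 - ∑ k, y.2 (ν k) := by
      simp only [hy1, hy2]
      rw [Finset.sum_add_distrib, Finset.sum_add_distrib, ← Finset.mul_sum, hs', Finset.sum_const,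
        Finset.card_univ, Fintype.card_fin, nsmul_eq_mul]
      rw [hN]
      push_cast
      ring
    have h1 := one_step hν y hNy hij
    rw [← ht] at h1
    refine ⟨q + (N - (y.2 (ν i) - y.2 (ν j))), ?_, ?_⟩
    · rw [hy2, hy2]
      have e1 : ∀ k, 2 * x.2 (ν k) * v k + N * v k ^ 2 =
          (2 * x.2 (ν k) * v' k + N * v' k ^ 2) + ((if k = j then
            2 * x.2 (ν k) + 2 * N * v' k + N else 0) +
              if k = i then -(2 * x.2 (ν k)) - 2 * N * v' k + N else 0) := by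
        intro k
        have e2 : v k = v' k + t k := by rw [hv']; ring
        rw [e2, ht]
        simp only
        by_cases h2 : k = j
        · by_cases h3 : k = i
          · exact absurd (h3.symm.trans h2) hij
          · rw [if_pos h2, if_neg h3, if_pos h2, if_neg h3]
            ring
        · by_cases h3 : k = i
          · rw [if_neg h2, if_pos h3, if_neg h2, if_pos h3]
            ring
          · rw [if_neg h2, if_neg h3, if_neg h2, if_neg h3]
            ring
      have e3 : ∀ (f g h : Fin 9 → ℤ), ∑ k, (f k + (g k + h k)) = ∑ k, f k + (∑ k, g k + ∑ k, h k) := by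
        intro f g h
        rw [Finset.sum_add_distrib, Finset.sum_add_distrib]
      rw [Finset.sum_congr rfl fun k _ => e1 k,
        e3 (fun k => 2 * x.2 (ν k) * v' k + N * v' k ^ 2) (fun k => if k = j then
            2 * x.2 (ν k) + 2 * N * v' k + N else 0) (fun k => if k = i then
              -(2 * x.2 (ν k)) - 2 * N * v' k + N else 0),
        Finset.sum_ite_eq' Finset.univ j, Finset.sum_ite_eq' Finset.univ i,
        if_pos (Finset.mem_univ _), if_pos (Finset.mem_univ _), ← hq]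
      ring
    · rw [← hy] at hc
      refine Relation.ReflTransGen.trans hc ?_
      have e1 : comb (comb x N (0, V ν v)) (q + (N - (y.2 (ν i) - y.2 (ν j)))) (3, V ν fun _ => 1) =
          comb (comb y N (0, V ν t)) (N - (y.2 (ν i) - y.2 (ν j))) (3, V ν fun _ => 1) := by
        have e2 : v = fun k => v' k + t k := by
          funext k
          rw [hv']
          ring
        obtain ⟨z, hz⟩ : ∃ z, z = N - (y.2 (ν i) - y.2 (ν j)) := ⟨_, rfl⟩
        rw [← hz, hy, e2]
        unfold comb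
        refine Prod.ext ?_ ?_
        · simp only
          ring
        · funext l
          simp only
          rw [V_add]
          ring
      rw [e1]
      exact h1

/-- **None, or at least `c x ^ 4`.** Let `s ≥ 4`. There is a set `E` of classes `(d; w)` such that for all very general
configurations `P` of `s` points (those at which countably many nonzero polynomials `Z n` do not vanish) `E` is the
set of the classes of the irreducible curves with negative self-intersection which are not `(-1)`-curves; and for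
every `c₀ ∈ E` there is `A ≥ 1` such that for all `x ≥ A` at least `(x / A) ^ 4` elements of `E` have degree at most `x`
and the same self-intersection and canonical degree as `c₀`. -/
theorem result (s : ℕ) (hs : 4 ≤ s) :
    ∃ (E : Set (ℕ × (Fin s → ℕ))) (Z : ℕ → MvPolynomial (Fin s × Fin 2) ℂ), (∀ n, Z n ≠ 0) ∧
      (∀ P : Fin s → Fin 2 → ℂ,
        (∀ n, MvPolynomial.eval (fun ij : Fin s × Fin 2 => P ij.1 ij.2) (Z n) ≠ 0) →
        ∀ c : ℕ × (Fin s → ℕ), c ∈ E ↔ ∃ C : MvPolynomial (Fin 3) ℂ, Curve P C c.1 c.2 ∧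
          ¬ MinusOne P C c.1 c.2 ∧ inter c.1 c.2 c.1 c.2 < 0) ∧
      ∀ c₀ ∈ E, ∃ A : ℕ, 1 ≤ A ∧ ∀ x : ℕ, A ≤ x → ∃ S : Finset (ℕ × (Fin s → ℕ)),
        (∀ c ∈ S, c ∈ E ∧ c.1 ≤ x ∧ inter c.1 c.2 c.1 c.2 = inter c₀.1 c₀.2 c₀.1 c₀.2 ∧
          interK c.1 c.2 = interK c₀.1 c₀.2) ∧ x ^ 4 ≤ A ^ 4 * S.card := by
  classical
  obtain ⟨r, rfl⟩ : ∃ r, s = r + 4 := ⟨s - 4, by omega⟩
  obtain ⟨Z, hZ, hfam⟩ := SH.exists_fam (Fin (r + 4) × Fin 2)
  -- the two descriptions
  have hI : ∀ (P : Fin (r + 4) → Fin 2 → ℂ) (c : ℕ × (Fin (r + 4) → ℕ)),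
      (∃ C : MvPolynomial (Fin 3) ℂ, Curve P C c.1 c.2 ∧ ¬ MinusOne P C c.1 c.2 ∧
        inter c.1 c.2 c.1 c.2 < 0) ↔ (Irr P c.1 c.2 ∧ SH.ip c.1 c.2 c.1 c.2 < 0) := by
    intro P c
    constructor
    · rintro ⟨C, h1, h2, h3⟩
      obtain ⟨g1, g2, g3⟩ := SH.curve_iff.1 h1
      refine ⟨⟨⟨C, g1, g2, g3⟩, fun h0 => h2 ⟨h1, ?_, ?_⟩⟩, h3⟩
      · rw [SH.inter_eq, h0.1]
      · rw [SH.interK_eq, h0.2]
    · rintro ⟨⟨⟨C, g1, g2, g3⟩, h2⟩, h3⟩
      refine ⟨C, SH.curve_iff.2 ⟨g1, g2, g3⟩, fun h0 => h2 ⟨?_, ?_⟩, h3⟩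
      · have := h0.self
        rwa [SH.inter_eq] at this
      · have := h0.canonical
        rw [SH.interK_eq] at this
        linarith
  have hconj : ∀ P Q : Fin (r + 4) → Fin 2 → ℂ,
      AlgebraicIndependent ℚ (fun ij : Fin (r + 4) × Fin 2 => P ij.1 ij.2) →
      AlgebraicIndependent ℚ (fun ij : Fin (r + 4) × Fin 2 => Q ij.1 ij.2) →
      ∀ (e : ℕ) (u : Fin (r + 4) → ℕ), Irr P e u → Irr Q e u := by
    intro P Q hP hQ e u h
    obtain ⟨C, g1, g2, g3⟩ := h.ex
    obtain ⟨C', a1, a2, a3⟩ := exists_conj hP hQ g1 g2 g3 (Equiv.refl _)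
    exact ⟨⟨C', a1, a2, a3⟩, h.ne⟩
  refine ⟨{c | ∃ P : Fin (r + 4) → Fin 2 → ℂ,
    AlgebraicIndependent ℚ (fun ij : Fin (r + 4) × Fin 2 => P ij.1 ij.2) ∧ Irr P c.1 c.2 ∧
      SH.ip c.1 c.2 c.1 c.2 < 0}, Z, hZ, ?_, ?_⟩
  · intro P hP0 c
    have hP := (hfam _).1 hP0
    rw [hI]
    constructor
    · rintro ⟨Q, hQ, h1, h2⟩
      exact ⟨hconj Q P hQ hP _ _ h1, h2⟩
    · rintro ⟨h1, h2⟩
      exact ⟨P, hP, h1, h2⟩
  rintro ⟨d, w⟩ ⟨P, hP, hD, hneg⟩
  simp only at hD hneg
  -- at least nine points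
  have h9 : 9 ≤ r + 4 := by
    by_contra hcon
    obtain ⟨G, g1, g2, g3⟩ := hD.ex
    refine hD.ne (Pool.Agent.TH167.T3.neg9 ?_ hP g1 g2 g3 hneg)
    refine (Finset.card_filter_le _ _).trans ?_
    rw [Finset.card_univ, Fintype.card_fin]
    omega
  obtain ⟨ν, hνdef⟩ : ∃ ν : Fin 9 → Fin (r + 4), ν = Fin.castLE h9 := ⟨_, rfl⟩
  have hν : Function.Injective ν := by
    rw [hνdef]
    exact Fin.castLE_injective h9
  obtain ⟨N, hN⟩ : ∃ N : ℤ, N = 3 * (d : ℤ) - ∑ k, (w (ν k) : ℤ) := ⟨_, rfl⟩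
  have hNpos := (nine_pos hP hD hneg hν hN).1
  obtain ⟨N', hN'⟩ : ∃ N' : ℕ, (N' : ℤ) = N := ⟨N.toNat, Int.toNat_of_nonneg hNpos.le⟩
  -- all multiplicities are at most the degree
  have hwd : ∀ l, w l ≤ d := by
    intro l
    obtain ⟨G, g1, g2, g3⟩ := hD.ex
    exact SH.van_le g1.ne_zero g2 (g3 l).1
  refine ⟨49 * d + 108 * N' + 1, by omega, fun x hx => ?_⟩
  obtain ⟨A, hA⟩ : ∃ A, A = 49 * d + 108 * N' + 1 := ⟨_, rfl⟩
  rw [← hA] at hx ⊢
  have hA0 : 0 < A := by omega
  obtain ⟨R, hR⟩ : ∃ R, R = Nat.sqrt (x / A) := ⟨_, rfl⟩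
  have hR1 : 1 ≤ R := by
    rw [hR, Nat.le_sqrt']
    exact (Nat.one_le_div_iff hA0).2 hx
  have hRx : A * R ^ 2 ≤ x := by
    have h1 : R ^ 2 ≤ x / A := by
      rw [hR]
      exact Nat.sqrt_le' _
    calc A * R ^ 2 ≤ A * (x / A) := Nat.mul_le_mul_left _ h1
      _ ≤ x := Nat.mul_div_le _ _
  have hRx' : x ≤ A * (R + 1) ^ 2 := by
    have h1 : x / A < (R + 1) ^ 2 := by
      rw [hR]
      exact Nat.lt_succ_sqrt' _
    calc x ≤ A * (x / A + 1) := by
          have := Nat.div_add_mod x A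
          have h2 := Nat.mod_lt x hA0
          rw [mul_add, mul_one]
          omega
      _ ≤ A * (R + 1) ^ 2 := Nat.mul_le_mul_left _ h1
  -- the vectors
  obtain ⟨vec, hvec⟩ : ∃ vec : (Fin 8 → Fin (R + 1)) → Fin 9 → ℤ, vec = fun g =>
      Fin.snoc (α := fun _ => ℤ) (fun k : Fin 8 => ((g k : ℕ) : ℤ)) (-∑ k : Fin 8, ((g k : ℕ) : ℤ)) := ⟨_, rfl⟩
  have hv1 : ∀ g (k : Fin 8), vec g k.castSucc = ((g k : ℕ) : ℤ) := by
    intro g k
    rw [hvec]
    simp
  have hv2 : ∀ g, vec g (Fin.last 8) = -∑ k : Fin 8, ((g k : ℕ) : ℤ) := by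
    intro g
    rw [hvec]
    exact Fin.snoc_last (α := fun _ => ℤ) _ _
  have hv0 : ∀ g, ∑ k, vec g k = 0 := by
    intro g
    rw [Fin.sum_univ_castSucc]
    simp only [hv1, hv2]
    ring
  have hcls : ∀ g : Fin 8 → Fin (R + 1), ∃ (q : ℤ) (e : ℕ) (u : Fin (r + 4) → ℕ),
      2 * q = ∑ k, (2 * (w (ν k) : ℤ) * vec g k + N * vec g k ^ 2) ∧
      comb (comb (toCls d w) N (0, V ν (vec g))) q (3, V ν fun _ => 1) = toCls e u ∧
      Irr P e u ∧ SH.ip e u e u = SH.ip d w d w ∧ SH.kk e u = SH.kk d w := by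
    intro g
    obtain ⟨q, hq, hc⟩ := lattice hν (toCls d w) (N := N) hN _ (vec g) (hv0 g) le_rfl
    obtain ⟨e, u, h1, h2, h3, h4⟩ := carry_irr' hP hD hc
    exact ⟨q, e, u, hq, h1, h2, h3, h4⟩
  choose q e u hq hcl hirr hip hkk using hcls
  have hinj : Function.Injective (fun g => ((e g, u g) : ℕ × (Fin (r + 4) → ℕ))) := by
    intro g g' hgg
    have h1 : comb (comb (toCls d w) N (0, V ν (vec g))) (q g) (3, V ν fun _ => 1) =
        comb (comb (toCls d w) N (0, V ν (vec g'))) (q g') (3, V ν fun _ => 1) := by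
      rw [hcl g, hcl g']
      have h2 := congrArg Prod.fst hgg
      have h3 := congrArg Prod.snd hgg
      simp only at h2 h3
      rw [h2, h3]
    have h2 : ∀ k, N * vec g k + q g = N * vec g' k + q g' := by
      intro k
      have h3 := congrFun (congrArg Prod.snd h1) (ν k)
      unfold comb at h3
      simp only at h3
      rw [V_at hν, V_at hν, V_at hν] at h3
      linarith
    have h3 : q g = q g' := by
      have h4 : ∑ k, (N * vec g k + q g) = ∑ k, (N * vec g' k + q g') :=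
        Finset.sum_congr rfl fun k _ => h2 k
      rw [Finset.sum_add_distrib, Finset.sum_add_distrib, ← Finset.mul_sum, ← Finset.mul_sum, hv0,
        hv0] at h4
      simp only [Finset.sum_const, Finset.card_univ, Fintype.card_fin, nsmul_eq_mul] at h4
      push_cast at h4
      linarith
    funext k
    have h4 := h2 k.castSucc
    rw [h3, hv1, hv1] at h4
    have h5 : N * ((g k : ℕ) : ℤ) = N * ((g' k : ℕ) : ℤ) := by linarith
    have h6 := mul_left_cancel₀ hNpos.ne' h5
    exact Fin.ext (by exact_mod_cast h6)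
  refine ⟨Finset.univ.image (fun g => ((e g, u g) : ℕ × (Fin (r + 4) → ℕ))), ?_, ?_⟩
  · intro c hc
    obtain ⟨g, -, rfl⟩ := Finset.mem_image.1 hc
    refine ⟨⟨P, hP, hirr g, ?_⟩, ?_, ?_, ?_⟩
    · show SH.ip (e g) (u g) (e g) (u g) < 0
      rw [hip g]
      exact hneg
    · -- the degree
      show e g ≤ x
      have h1 := congrArg Prod.fst (hcl g)
      have h2 : (d : ℤ) + N * 0 + q g * 3 = (e g : ℤ) := h1
      have h3 : 2 * q g ≤ 32 * (d : ℤ) * R + 72 * N * (R : ℤ) ^ 2 := by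
        rw [hq g, Fin.sum_univ_castSucc]
        simp only [hv1, hv2]
        have h4 : ∀ k : Fin 8, 2 * (w (ν k.castSucc) : ℤ) * ((g k : ℕ) : ℤ) +
            N * ((g k : ℕ) : ℤ) ^ 2 ≤ 2 * (d : ℤ) * R + N * (R : ℤ) ^ 2 := by
          intro k
          have b1 : ((g k : ℕ) : ℤ) ≤ R := by exact_mod_cast Nat.lt_succ_iff.1 (g k).2
          have b2 : (0 : ℤ) ≤ ((g k : ℕ) : ℤ) := Int.natCast_nonneg _
          have b3 : ((w (ν k.castSucc) : ℕ) : ℤ) ≤ d := by exact_mod_cast hwd _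
          have b4 : (0 : ℤ) ≤ ((w (ν k.castSucc) : ℕ) : ℤ) := Int.natCast_nonneg _
          have b5 : ((w (ν k.castSucc) : ℕ) : ℤ) * ((g k : ℕ) : ℤ) ≤ d * R :=
            mul_le_mul b3 b1 b2 (Int.natCast_nonneg _)
          have b6 : ((g k : ℕ) : ℤ) ^ 2 ≤ (R : ℤ) ^ 2 := pow_le_pow_left₀ b2 b1 2
          have b7 := mul_le_mul_of_nonneg_left b6 hNpos.le
          linarith
        have h5 := Finset.sum_le_sum fun k (_ : k ∈ (Finset.univ : Finset (Fin 8))) => h4 k
        rw [Finset.sum_const, Finset.card_univ, Fintype.card_fin, nsmul_eq_mul] at h5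
        have h6 : (0 : ℤ) ≤ ∑ k : Fin 8, ((g k : ℕ) : ℤ) :=
          Finset.sum_nonneg fun k _ => Int.natCast_nonneg _
        have h7 : ∑ k : Fin 8, ((g k : ℕ) : ℤ) ≤ 8 * (R : ℤ) := by
          have h8 := Finset.sum_le_sum fun k (_ : k ∈ (Finset.univ : Finset (Fin 8))) =>
            (show ((g k : ℕ) : ℤ) ≤ R by exact_mod_cast Nat.lt_succ_iff.1 (g k).2)
          rw [Finset.sum_const, Finset.card_univ, Fintype.card_fin, nsmul_eq_mul] at h8
          exact_mod_cast h8
        have h9' : (0 : ℤ) ≤ (w (ν (Fin.last 8)) : ℤ) := Int.natCast_nonneg _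
        have h10 : 0 ≤ (w (ν (Fin.last 8)) : ℤ) * ∑ k : Fin 8, ((g k : ℕ) : ℤ) :=
          mul_nonneg h9' h6
        have h11 : (∑ k : Fin 8, ((g k : ℕ) : ℤ)) ^ 2 ≤ (8 * (R : ℤ)) ^ 2 :=
          pow_le_pow_left₀ h6 h7 2
        have h12 := mul_le_mul_of_nonneg_left h11 hNpos.le
        have h13 : (0 : ℤ) ≤ (d : ℤ) * R := mul_nonneg (Int.natCast_nonneg _) (Int.natCast_nonneg _)
        push_cast at h5
        nlinarith
      have h4 : (1 : ℤ) ≤ R := by exact_mod_cast hR1
      have h5 : (R : ℤ) ≤ (R : ℤ) ^ 2 := by nlinarith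
      have hd0 : (0 : ℤ) ≤ d := Int.natCast_nonneg _
      have h6 : (e g : ℤ) ≤ (49 * (d : ℤ) + 108 * N) * (R : ℤ) ^ 2 := by
        have h7 : (d : ℤ) * R ≤ d * (R : ℤ) ^ 2 := mul_le_mul_of_nonneg_left h5 hd0
        have h8 : (d : ℤ) ≤ d * (R : ℤ) ^ 2 := by nlinarith
        have h9 : 2 * (e g : ℤ) ≤ 2 * ((49 * (d : ℤ) + 108 * N) * (R : ℤ) ^ 2) := by
          have e1 : 2 * (e g : ℤ) = 2 * d + 3 * (2 * q g) := by rw [← h2]; ring
          rw [e1]
          linarith
        linarith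
      have h7 : (e g : ℤ) ≤ x := by
        have h8 : (49 * (d : ℤ) + 108 * N) * (R : ℤ) ^ 2 ≤ (A : ℤ) * (R : ℤ) ^ 2 := by
          refine mul_le_mul_of_nonneg_right ?_ (sq_nonneg _)
          rw [hA, ← hN']
          push_cast
          linarith
        have h9 : (A : ℤ) * (R : ℤ) ^ 2 ≤ x := by exact_mod_cast hRx
        linarith
      exact_mod_cast h7
    · show inter (e g) (u g) (e g) (u g) = inter d w d w
      rw [SH.inter_eq, SH.inter_eq, hip g]
    · show interK (e g) (u g) = interK d w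
      rw [SH.interK_eq, SH.interK_eq, hkk g]
  · rw [Finset.card_image_of_injective _ hinj, Finset.card_univ, Fintype.card_fun, Fintype.card_fin,
      Fintype.card_fin]
    calc x ^ 4 ≤ (A * (R + 1) ^ 2) ^ 4 := Nat.pow_le_pow_left hRx' 4
      _ = A ^ 4 * (R + 1) ^ 8 := by ring

end Pool.Agent.Results.MP_d3e5c7_ag.ZeroOrManyCurves
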