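import Mathlib
import Pool.Agent.J4H49.StdB
import Pool.Agent.TH167.SH.Conv
import Pool.Agent.TH167.SH.Defs

set_option autoImplicit false

/-!
# Negative curves with a given multiplicity: finitely many Weyl group orbits for all `s` together

Let `X` be the blow-up of the complex projective plane at `s ≥ 4` very general points and let `C` be
an irreducible curve on `X` with `C ^ 2 < 0`, not a `(-1)`-curve: these are the curves which have to
be excluded in Q1. Suppose that `C E = m ≥ 2` for some `(-1)`-curve `E`; for instance, let `m` be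
the multiplicity of `C` at one of the points. Then finitely many reflections in classes
`H - E i - E j - E l` carry the class of `C` to the class `e H - ∑ u i E i` of an irreducible curve on
`X` in standard form (`e ≥ u i + u j + u l` for all distinct `i, j, l`) such that

* `e ≤ 216 m ^ 4`, and at most `6 m ^ 2 + 9` of the multiplicities `u i` are positive;
* for EVERY `u j ≥ 2` at most `22 u j + 10` of the `u i` are positive.

So for every `m` there are only finitely many possibilities for `e` and the positive `u i`, for all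
numbers `s` of points and for all the other multiplicities together; and a negative curve in
standard form through `t` of the points has no multiplicity in the interval from `2` to
`(t - 11) / 22`. This uses the quadratic bound for the genus (QuadraticGenusBound)
and the starting result CanonicalDegree of MP_309968_ag.
-/

namespace Pool.Agent.Results.MP_d3e5c7_ag.FiniteForEachMultiplicity

open MvPolynomial Pool.Agent.TH167 Pool.Agent.TH167.SHDefs

/-- The reflection of the class `a = (d; w)`, `d H - ∑ w l E l`, in the class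
`H - E (i 0) - E (i 1) - E (i 2)`: with `δ = d - w (i 0) - w (i 1) - w (i 2)`, the numbers
`d`, `w (i 0)`, `w (i 1)`, `w (i 2)` are increased by `δ`. -/
def reflect {s : ℕ} (i : Fin 3 → Fin s) (a : ℤ × (Fin s → ℤ)) : ℤ × (Fin s → ℤ) :=
  (a.1 + (a.1 - a.2 (i 0) - a.2 (i 1) - a.2 (i 2)),
    fun l => a.2 l + if l = i 0 ∨ l = i 1 ∨ l = i 2 then a.1 - a.2 (i 0) - a.2 (i 1) - a.2 (i 2)
      else 0)

/-- Finitely many reflections carry the class `a` to `b`. -/
def Carries {s : ℕ} (a b : ℤ × (Fin s → ℤ)) : Prop :=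
  Relation.ReflTransGen
    (fun a b : ℤ × (Fin s → ℤ) => ∃ i : Fin 3 → Fin s, Function.Injective i ∧ b = reflect i a) a b

/-- The class `(e; u)` is standard: the degree is at least the sum of any three multiplicities. -/
def Standard {s : ℕ} (e : ℕ) (u : Fin s → ℕ) : Prop :=
  ∀ i j l : Fin s, i ≠ j → i ≠ l → j ≠ l → u i + u j + u l ≤ e

/-- The number of positive multiplicities. -/
def numPos {s : ℕ} (u : Fin s → ℕ) : ℕ := (Finset.univ.filter fun i => u i ≠ 0).card

theorem result (s : ℕ) (hs : 4 ≤ s) :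
    ∃ Z : ℕ → MvPolynomial (Fin s × Fin 2) ℂ, (∀ n, Z n ≠ 0) ∧
      ∀ P : Fin s → Fin 2 → ℂ,
        (∀ n, MvPolynomial.eval (fun ij : Fin s × Fin 2 => P ij.1 ij.2) (Z n) ≠ 0) →
        ∀ (d : ℕ) (w : Fin s → ℕ) (C : MvPolynomial (Fin 3) ℂ) (m : ℕ), Curve P C d w →
          ¬ MinusOne P C d w → inter d w d w < 0 → 2 ≤ m →
          ((∃ i, w i = m) ∨ ∃ (e : ℕ) (u : Fin s → ℕ) (E : MvPolynomial (Fin 3) ℂ),
            MinusOne P E e u ∧ inter d w e u = m) →
          ∃ (e : ℕ) (u : Fin s → ℕ) (G : MvPolynomial (Fin 3) ℂ),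
            Carries ((d : ℤ), fun l => (w l : ℤ)) ((e : ℤ), fun l => (u l : ℤ)) ∧
            Curve P G e u ∧ Standard e u ∧ e ≤ d ∧
            e ≤ 216 * m ^ 4 ∧ numPos u ≤ 6 * m ^ 2 + 9 ∧
            ∀ j, 2 ≤ u j → numPos u ≤ 22 * u j + 10 := by
  obtain ⟨r, rfl⟩ : ∃ r, s = r + 4 := ⟨s - 4, by omega⟩
  obtain ⟨Z, hZ, h⟩ := SH.exists_fam (Fin (r + 4) × Fin 2)
  refine ⟨Z, hZ, fun P hP0 d w C m hC hne hneg hm hmm => ?_⟩
  have hP := (h _).1 hP0
  obtain ⟨h1, h2, h3⟩ := SH.curve_iff.1 hC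
  have hne' : ¬ (SH.ip d w d w = -1 ∧ SH.kk d w = 1) := fun h0 =>
    hne ⟨hC, by rw [SH.inter_eq, h0.1], by rw [SH.interK_eq, h0.2]⟩
  rw [SH.inter_eq] at hneg
  have hκ3 := (R355.CanDeg.main hP (d := d) (w := w) ⟨⟨C, h1, h2, h3⟩, hne'⟩
    (k := -SH.ip d w d w) (κ := -SH.kk d w) (neg_neg _).symm (by linarith) (neg_neg _).symm).1
  obtain ⟨e, u, a1, ⟨⟨G, g1, g2, g3⟩, -⟩, a3, a4, a5, a6, a7⟩ :=
    J4H49.std_bound hP ⟨⟨C, h1, h2, h3⟩, hne'⟩ hneg
  obtain ⟨κ, hκ⟩ : ∃ κ : ℤ, κ = -SH.kk d w := ⟨_, rfl⟩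
  have hκm : κ + 2 ≤ 11 * (m : ℤ) ^ 2 + m := by
    rw [hκ]
    rcases hmm with ⟨i, hi⟩ | ⟨e, u, E, hE, hCE⟩
    · have h4 := J4H49.kappa_le hP h1 h2 h3 hneg (j := i) (by omega)
      rw [hi] at h4
      exact h4
    · rw [SH.inter_eq] at hCE
      obtain ⟨f1, f2, f3⟩ := SH.curve_iff.1 hE.curve
      have f4 := hE.self
      have f5 := hE.canonical
      rw [SH.inter_eq] at f4
      rw [SH.interK_eq] at f5
      have h4 := (J4H49.kappa_orb hP f1 f2 f3 f4 (by linarith) h1 h2 h3 hneg hne' (by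
        rw [hCE]
        exact_mod_cast hm)).2
      rw [hCE] at h4
      exact h4
  have hmz : (2 : ℤ) ≤ m := by exact_mod_cast hm
  rw [← hκ] at hκ3 a5
  have hkk : SH.kk d w = -κ := by rw [hκ, neg_neg]
  rw [hkk] at a6
  refine ⟨e, u, G, a1, SH.curve_iff.2 ⟨g1, g2, g3⟩, a3, a4, ?_, ?_, fun j hj => (a7 j hj).1⟩
  · have h8 : κ + 1 ≤ 12 * (m : ℤ) ^ 2 - 1 := by nlinarith
    have h9 : (κ + 1) ^ 2 ≤ (12 * (m : ℤ) ^ 2 - 1) ^ 2 := by
      refine pow_le_pow_left₀ (by linarith) h8 2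
    have h10 : (e : ℤ) ≤ 216 * (m : ℤ) ^ 4 := by nlinarith
    exact_mod_cast h10
  · have h8 : (numPos u : ℤ) ≤ 6 * (m : ℤ) ^ 2 + 9 := by
      have h9 : 2 * (numPos u : ℤ) ≤ 19 - -κ := a6
      nlinarith
    exact_mod_cast h8

end Pool.Agent.Results.MP_d3e5c7_ag.FiniteForEachMultiplicity
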