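import Mathlib
import Pool.Agent.J4H49.StdB
import Pool.Agent.TH167.SH.Conv
import Pool.Agent.TH167.SH.Defs

set_option autoImplicit false

/-!
# The genus of a negative curve is at most `(11 / 2) (C E) ^ 2` for every `(-1)`-curve `E`, `C E ≥ 2`

Let `X` be the blow-up of the complex projective plane at `s ≥ 4` very general points and let `C` be
an irreducible curve on `X` (the strict transform of a plane curve) with `C ^ 2 < 0`. For every
`(-1)`-curve `E` on `X` with `C E ≥ 2`, in particular for every exceptional curve `E i` over a point
at which `C` has multiplicity `m = C E i ≥ 2`, the arithmetic genus of `C` satisfies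
`2 p_a(C) ≤ 11 (C E) ^ 2`.

There is no condition on the number of the points or on the other multiplicities. All positive
multiplicities of a negative curve are at least four if `C ^ 2 ≤ -2` (starting result
MultiplicitiesAtLeastFour); if `C ^ 2 = -1` and `C` is not a `(-1)`-curve there is at most one
exception, a simple point.

Idea of the proof. Quadratic transformations carry `E` to an exceptional curve `E k`; let `m` be the
multiplicity of `C` at `p = P k`, and let `D = C + m E k`, so that `D C = C ^ 2 + m ^ 2 < m ^ 2`.
Moving the point `p` differentiates the equation `G` of `C`: the leading forms at `p` of the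
sections of `n D` contain all products of `n` partial derivatives of the tangent cone `F` of `C` at
`p`. As `C` is rigid, the two first derivatives of `F` are independent, and the theory of
Sylvester of binary forms shows that the leading forms of the sections of `n D` fill all degrees up
to about `n m / 6`, or `F` is divisible by a power of a linear form of exponent `e > 5 m / 6`. Let
`H` be the derivative of `G` with respect to `p`. Multiplication by `H`, and the jets at `p` modulo
the ideal `(G, H)`, show that the space of sections of `n D` on `C` grows so quickly that for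
`n = 12` it is not special by Clifford's theorem; now the theorem of Riemann and Roch, on the curve
`C` with its singular point `p`, bounds the genus. In the degenerate case the same growth, with
weights `(q, q + 1)` of the variables, contradicts `D C < m ^ 2`, unless the part of degree `m + 1` of
the equation at `p` contains a monomial with a small exponent; then the initial form of the equation
for suitable weights has exactly two monomials, and counting the initial monomials of the sections
of `n D` bounds the genus.
-/

namespace Pool.Agent.Results.MP_d3e5c7_ag.QuadraticGenusBound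

open MvPolynomial Pool.Agent.TH167 Pool.Agent.TH167.SHDefs

/-- Twice the arithmetic genus of a curve of class `(d; w)`, by adjunction:
`2 p_a(C) = C ^ 2 + K C + 2`. -/
def twiceGenus {s : ℕ} (d : ℕ) (w : Fin s → ℕ) : ℤ := inter d w d w + interK d w + 2

theorem result (s : ℕ) (hs : 4 ≤ s) :
    ∃ Z : ℕ → MvPolynomial (Fin s × Fin 2) ℂ, (∀ n, Z n ≠ 0) ∧
      ∀ P : Fin s → Fin 2 → ℂ,
        (∀ n, MvPolynomial.eval (fun ij : Fin s × Fin 2 => P ij.1 ij.2) (Z n) ≠ 0) →
        ∀ (d : ℕ) (w : Fin s → ℕ) (C : MvPolynomial (Fin 3) ℂ), Curve P C d w →
          inter d w d w < 0 →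
          (∀ i, 2 ≤ w i → twiceGenus d w ≤ 11 * (w i : ℤ) ^ 2) ∧
          ∀ (e : ℕ) (u : Fin s → ℕ) (E : MvPolynomial (Fin 3) ℂ), MinusOne P E e u →
            2 ≤ inter d w e u → twiceGenus d w ≤ 11 * (inter d w e u) ^ 2 := by
  have hgen : ∀ {s : ℕ} (d : ℕ) (w : Fin s → ℕ),
      twiceGenus d w = SH.ip d w d w - SH.kk d w + 2 := by
    intro s d w
    unfold twiceGenus
    rw [SH.inter_eq, SH.interK_eq]
    ring
  obtain ⟨r, rfl⟩ : ∃ r, s = r + 4 := ⟨s - 4, by omega⟩
  obtain ⟨Z, hZ, h⟩ := SH.exists_fam (Fin (r + 4) × Fin 2)
  refine ⟨Z, hZ, fun P hP0 d w C hC hneg => ?_⟩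
  have hP := (h _).1 hP0
  obtain ⟨h1, h2, h3⟩ := SH.curve_iff.1 hC
  rw [SH.inter_eq] at hneg
  refine ⟨fun i hi => ?_, fun e u E hE hCE => ?_⟩
  · rw [hgen]
    exact J4H49.genus hP h1 h2 h3 hneg hi
  · rw [hgen]
    rw [SH.inter_eq] at hCE ⊢
    by_cases hne' : SH.ip d w d w = -1 ∧ SH.kk d w = 1
    · rw [hne'.1, hne'.2]
      nlinarith [sq_nonneg (SH.ip d w e u)]
    · obtain ⟨f1, f2, f3⟩ := SH.curve_iff.1 hE.curve
      have f4 := hE.self
      have f5 := hE.canonical
      rw [SH.inter_eq] at f4
      rw [SH.interK_eq] at f5
      exact (J4H49.kappa_orb hP f1 f2 f3 f4 (by linarith) h1 h2 h3 hneg hne' hCE).1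

end Pool.Agent.Results.MP_d3e5c7_ag.QuadraticGenusBound
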