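import Pool.Agent.R355.NegOrb
import Pool.Agent.TH167.SH.Fam
import Pool.Agent.TH167.T3.Nine

/-!
# Negative curves: separation in the whole orbit of the Weyl group

Let `P 1, …, P s`, `s ≥ 4`, be very general points of the complex projective plane. The group `W`
generated by the permutations of the `E i` and by the reflections in the classes
`H - E i - E j - E l` acts on the classes `d H - ∑ w i E i`; its roots are the classes carried to some
`E i - E j`. Let `D` and `D'` be the classes of two irreducible curves, not `(-1)`-curves. Then `D` and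
EVERY class `c ≠ D` of the orbit of `D'` have nonnegative intersection. So, if `D ^ 2 = -k < 0`:

* every root `α` has `D α = 0` or `|D α| ≥ √k`; in particular `|d - w i - w j - w l|` is `0` or at
  least `√k`, also for all classes in the orbit (the starting result `SeparatedMultiplicities` has
  the roots `E i - E j`);
* for any nine of the points `3 d - w i_1 - … - w i_9 ≥ √k`: the intersection number of the curve with
  the cubic through any nine of the points is at least `√k`;
* every `(-1)`-curve `E` has `D E = 0` or `D E ≥ k`.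

Proof. A quadratic transformation carries the curve to an irreducible curve at other very general
points, and an automorphism of the complex numbers carries it back to the given points, with any
permutation of them. So every class in the orbit of `D` is the class of an irreducible curve on the
same surface, and Bezout applies. The second part uses the translations in the affine Weyl group of
nine of the points: `D t(D) = D ^ 2 + (D K) ^ 2`, `K` the canonical class of the nine points; if `D K = 0`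
then all nine multiplicities are equal, and the inequality of Xu and Ein-Lazarsfeld and the starting
result on nine large multiplicities (library) apply.
-/

set_option autoImplicit false

namespace Pool.Agent.Results.MP_d3e5c7_ag.SeparatedOrbits

open MvPolynomial Pool.Agent.TH167 Pool.Agent.TH167.SHDefs Pool.Agent.R355.NegOrb
open Pool.Agent.W609.CR (Ord aff)
open Pool.Agent.TH442.NF (cls refl Step refl_cls)

/-- The reflection of the class `a = (d; w)`, `d H - ∑ w l E l`, in the class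
`H - E (i 0) - E (i 1) - E (i 2)`: with `δ = d - w (i 0) - w (i 1) - w (i 2)`, the numbers
`d`, `w (i 0)`, `w (i 1)`, `w (i 2)` are increased by `δ`. -/
def reflect {s : ℕ} (i : Fin 3 → Fin s) (a : ℤ × (Fin s → ℤ)) : ℤ × (Fin s → ℤ) :=
  (a.1 + (a.1 - a.2 (i 0) - a.2 (i 1) - a.2 (i 2)),
    fun l => a.2 l + if l = i 0 ∨ l = i 1 ∨ l = i 2 then a.1 - a.2 (i 0) - a.2 (i 1) - a.2 (i 2)
      else 0)

/-- One step: a reflection at three distinct indices or a permutation of the indices. -/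
def Move {s : ℕ} (a b : ℤ × (Fin s → ℤ)) : Prop :=
  (∃ i : Fin 3 → Fin s, Function.Injective i ∧ b = reflect i a) ∨
    ∃ σ : Equiv.Perm (Fin s), b = (a.1, fun l => a.2 (σ l))

/-- Finitely many steps carry the class `a` to `b`. -/
def Carries {s : ℕ} (a b : ℤ × (Fin s → ℤ)) : Prop := Relation.ReflTransGen Move a b

/-- The intersection number. -/
def dot {s : ℕ} (a b : ℤ × (Fin s → ℤ)) : ℤ := a.1 * b.1 - ∑ l, a.2 l * b.2 l

/-- The class of a curve. -/
def toCls {s : ℕ} (d : ℕ) (w : Fin s → ℕ) : ℤ × (Fin s → ℤ) := (d, fun l => w l)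

/-- A root: a class obtained from some `E i - E j`, `i ≠ j`. -/
def Root {s : ℕ} (α : ℤ × (Fin s → ℤ)) : Prop :=
  ∃ i j : Fin s, i ≠ j ∧ Carries (0, Pi.single j 1 - Pi.single i 1) α

theorem dot_reflect {s : ℕ} {i : Fin 3 → Fin s} (hi : Function.Injective i)
    (a b : ℤ × (Fin s → ℤ)) : dot (reflect i a) (reflect i b) = dot a b := bil_refl hi a b

theorem reflect_reflect {s : ℕ} (i : Fin 3 → Fin s) (a : ℤ × (Fin s → ℤ)) :
    reflect i (reflect i a) = a := refl_refl i a

/-- `a + c b` -/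
def comb {s : ℕ} (a : ℤ × (Fin s → ℤ)) (c : ℤ) (b : ℤ × (Fin s → ℤ)) : ℤ × (Fin s → ℤ) :=
  (a.1 + c * b.1, fun l => a.2 l + c * b.2 l)

theorem reflect_comb {s : ℕ} (i : Fin 3 → Fin s) (a b : ℤ × (Fin s → ℤ)) (c : ℤ) :
    reflect i (comb a c b) = comb (reflect i a) c (reflect i b) := by
  unfold reflect comb
  refine Prod.ext ?_ ?_
  · simp only
    ring
  · funext l
    simp only
    split_ifs <;> ring

theorem dot_comb_left {s : ℕ} (a b x : ℤ × (Fin s → ℤ)) (c : ℤ) :
    dot (comb a c b) x = dot a x + c * dot b x := by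
  unfold dot comb
  simp only
  have h : ∀ l, (a.2 l + c * b.2 l) * x.2 l = a.2 l * x.2 l + c * (b.2 l * x.2 l) := fun l => by ring
  rw [Finset.sum_congr rfl fun l _ => h l, Finset.sum_add_distrib, ← Finset.mul_sum]
  ring

theorem dot_comm {s : ℕ} (a b : ℤ × (Fin s → ℤ)) : dot a b = dot b a := by
  unfold dot
  rw [mul_comm, Finset.sum_congr rfl fun l _ => mul_comm (a.2 l) (b.2 l)]

theorem dot_comb_right {s : ℕ} (a b x : ℤ × (Fin s → ℤ)) (c : ℤ) :
    dot x (comb a c b) = dot x a + c * dot x b := by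
  rw [dot_comm, dot_comb_left, dot_comm a, dot_comm b]

/-- The reflections in the roots belong to the group. -/
theorem root_refl {s : ℕ} {i j : Fin s} (hij : i ≠ j) {β : ℤ × (Fin s → ℤ)}
    (hβ : Carries (0, Pi.single j 1 - Pi.single i 1) β) :
    ∀ x : ℤ × (Fin s → ℤ), Carries x (comb x (dot x β) β) := by
  unfold Carries at hβ
  induction hβ with
  | refl =>
    intro x
    refine Relation.ReflTransGen.single (Or.inr ⟨Equiv.swap i j, ?_⟩)
    have e0 : dot x (0, Pi.single j 1 - Pi.single i 1) = x.2 i - x.2 j := by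
      unfold dot
      simp only [mul_zero, Pi.sub_apply, mul_sub, Finset.sum_sub_distrib]
      rw [Finset.sum_eq_single j (fun b _ hb => by rw [Pi.single_eq_of_ne hb, mul_zero])
        (fun h => absurd (Finset.mem_univ _) h),
        Finset.sum_eq_single i (fun b _ hb => by rw [Pi.single_eq_of_ne hb, mul_zero])
        (fun h => absurd (Finset.mem_univ _) h), Pi.single_eq_same, Pi.single_eq_same]
      ring
    rw [e0]
    unfold comb
    refine Prod.ext (by simp) ?_
    funext l
    simp only [Pi.sub_apply]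
    by_cases h1 : l = i
    · subst h1
      rw [Equiv.swap_apply_left, Pi.single_eq_same, Pi.single_eq_of_ne hij]
      ring
    · by_cases h2 : l = j
      · subst h2
        rw [Equiv.swap_apply_right, Pi.single_eq_same, Pi.single_eq_of_ne h1]
        ring
      · rw [Equiv.swap_apply_of_ne_of_ne h1 h2, Pi.single_eq_of_ne h1, Pi.single_eq_of_ne h2]
        ring
  | @tail β γ _ hβγ ih =>
    intro x
    unfold Carries at ih ⊢
    rcases hβγ with ⟨k, hk, rfl⟩ | ⟨σ, rfl⟩
    · have h1 : dot (reflect k x) β = dot x (reflect k β) := by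
        rw [← dot_reflect hk (reflect k x) β, reflect_reflect]
      have h2 := ih (reflect k x)
      refine (Relation.ReflTransGen.head (show Move x (reflect k x) from Or.inl ⟨k, hk, rfl⟩) h2).tail
        (Or.inl ⟨k, hk, ?_⟩)
      rw [reflect_comb, reflect_reflect, h1]
    · have h1 : dot (x.1, fun l => x.2 (σ.symm l)) β = dot x (β.1, fun l => β.2 (σ l)) := by
        unfold dot
        simp only
        rw [← Equiv.sum_comp σ (fun l => x.2 (σ.symm l) * β.2 l)]
        simp only [Equiv.symm_apply_apply]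
      have h2 := ih (x.1, fun l => x.2 (σ.symm l))
      refine (Relation.ReflTransGen.head
        (show Move x (x.1, fun l => x.2 (σ.symm l)) from Or.inr ⟨σ.symm, rfl⟩) h2).tail
        (Or.inr ⟨σ, ?_⟩)
      rw [h1]
      unfold comb
      refine Prod.ext rfl ?_
      funext l
      simp only [Equiv.symm_apply_apply]

/-- The vector with the coordinates `v k` at the indices `ν k`. -/
def V {s : ℕ} (ν : Fin 9 → Fin s) (v : Fin 9 → ℤ) (l : Fin s) : ℤ := ∑ k, if l = ν k then v k else 0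

theorem V_at {s : ℕ} {ν : Fin 9 → Fin s} (hν : Function.Injective ν) (v : Fin 9 → ℤ) (k : Fin 9) :
    V ν v (ν k) = v k := by
  unfold V
  rw [Finset.sum_eq_single k]
  · rw [if_pos rfl]
  · intro b _ hb
    rw [if_neg fun h => hb (hν h).symm]
  · exact fun h => absurd (Finset.mem_univ _) h

theorem V_off {s : ℕ} {ν : Fin 9 → Fin s} (v : Fin 9 → ℤ) {l : Fin s} (hl : ∀ k, l ≠ ν k) :
    V ν v l = 0 := by
  unfold V
  exact Finset.sum_eq_zero fun k _ => if_neg (hl k)

theorem sum_V {s : ℕ} (ν : Fin 9 → Fin s) (x : Fin s → ℤ) (v : Fin 9 → ℤ) :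
    ∑ l, x l * V ν v l = ∑ k, x (ν k) * v k := by
  unfold V
  simp only [Finset.mul_sum, mul_ite, mul_zero]
  rw [Finset.sum_comm]
  refine Finset.sum_congr rfl fun k _ => ?_
  rw [Finset.sum_ite_eq' Finset.univ (ν k) (fun l => x l * v k), if_pos (Finset.mem_univ _)]

theorem reflect_V {s : ℕ} {ν : Fin 9 → Fin s} (hν : Function.Injective ν) (i : Fin 3 → Fin 9)
    (m : ℤ) (v : Fin 9 → ℤ) : reflect (ν ∘ i) (m, V ν v) =
      (m + (m - v (i 0) - v (i 1) - v (i 2)), V ν fun k => v k +
        if k = i 0 ∨ k = i 1 ∨ k = i 2 then m - v (i 0) - v (i 1) - v (i 2) else 0) := by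
  unfold reflect
  simp only [Function.comp_apply, V_at hν]
  refine Prod.ext rfl ?_
  funext l
  simp only
  by_cases hl : ∃ k, l = ν k
  · obtain ⟨k, rfl⟩ := hl
    rw [V_at hν, V_at hν]
    simp only [hν.eq_iff]
  · push Not at hl
    rw [V_off _ hl, V_off _ hl, if_neg]
    · ring
    · rintro (h | h | h)
      · exact hl _ h
      · exact hl _ h
      · exact hl _ h

/-- The root `3 H - 2 E (ν 1) - E (ν 2) - … - E (ν 8)`. -/
theorem cubic_root {s : ℕ} {ν : Fin 9 → Fin s} (hν : Function.Injective ν) :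
    Carries (0, Pi.single (ν 8) 1 - Pi.single (ν 1) 1) (3, V ν ![0, 2, 1, 1, 1, 1, 1, 1, 1]) := by
  have e0 : ((0 : ℤ), (Pi.single (ν 8) 1 - Pi.single (ν 1) 1 : Fin s → ℤ)) =
      (0, V ν ![0, -1, 0, 0, 0, 0, 0, 0, 1]) := by
    refine Prod.ext rfl ?_
    funext l
    simp only [Pi.sub_apply, Pi.single_apply]
    by_cases hl : ∃ k, l = ν k
    · obtain ⟨k, rfl⟩ := hl
      rw [V_at hν]
      simp only [hν.eq_iff]
      fin_cases k <;> simp
    · push Not at hl
      rw [V_off _ hl, if_neg (hl _), if_neg (hl _)]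
      simp
  rw [e0]
  have step : ∀ (i : Fin 3 → Fin 9) (m m' : ℤ) (v v' : Fin 9 → ℤ), Function.Injective i →
      m' = m + (m - v (i 0) - v (i 1) - v (i 2)) → (∀ k, v' k = v k +
        if k = i 0 ∨ k = i 1 ∨ k = i 2 then m - v (i 0) - v (i 1) - v (i 2) else 0) →
      Carries (m, V ν v) (m', V ν v') := by
    intro i m m' v v' hi h1 h2
    refine Relation.ReflTransGen.single (Or.inl ⟨ν ∘ i, hν.comp hi, ?_⟩)
    rw [reflect_V hν, ← h1]
    congr 2
    funext k
    exact h2 k
  refine (step ![6, 7, 1] 0 1 _ ![0, 0, 0, 0, 0, 0, 1, 1, 1] (by decide) (by decide) (by decide)).trans ?_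
  refine Relation.ReflTransGen.trans
    (step ![1, 4, 5] 1 2 _ ![0, 1, 0, 0, 1, 1, 1, 1, 1] (by decide) (by decide) (by decide)) ?_
  exact step ![1, 2, 3] 2 3 _ _ (by decide) (by decide) (by decide)

/-- The translations. -/
theorem translate {s : ℕ} {ν : Fin 9 → Fin s} (hν : Function.Injective ν)
    (x : ℤ × (Fin s → ℤ)) {N a : ℤ} (hN : N = 3 * x.1 - ∑ k, x.2 (ν k))
    (ha : a = x.2 (ν 0) - x.2 (ν 1)) (n : ℕ) :
    Carries x (comb (comb x (n * N) (0, V ν ![-1, 1, 0, 0, 0, 0, 0, 0, 0])) (n ^ 2 * N - n * a)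
      (3, V ν fun _ => 1)) := by
  have h01 : ν 0 ≠ ν 1 := fun h => absurd (hν h) (by decide)
  have h81 : ν 8 ≠ ν 1 := fun h => absurd (hν h) (by decide)
  have hα : ((0 : ℤ), (Pi.single (ν 1) 1 - Pi.single (ν 0) 1 : Fin s → ℤ)) =
      (0, V ν ![-1, 1, 0, 0, 0, 0, 0, 0, 0]) := by
    refine Prod.ext rfl ?_
    funext l
    simp only [Pi.sub_apply, Pi.single_apply]
    by_cases hl : ∃ k, l = ν k
    · obtain ⟨k, rfl⟩ := hl
      rw [V_at hν]
      simp only [hν.eq_iff]
      fin_cases k <;> simp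
    · push Not at hl
      rw [V_off _ hl, if_neg (hl _), if_neg (hl _)]
      simp
  obtain ⟨α, hα'⟩ : ∃ α : ℤ × (Fin s → ℤ), α = (0, V ν ![-1, 1, 0, 0, 0, 0, 0, 0, 0]) := ⟨_, rfl⟩
  obtain ⟨δ, hδ⟩ : ∃ δ : ℤ × (Fin s → ℤ), δ = (3, V ν fun _ => 1) := ⟨_, rfl⟩
  have hβ : ((3 : ℤ), V ν ![0, 2, 1, 1, 1, 1, 1, 1, 1]) = comb δ 1 α := by
    rw [hδ, hα']
    unfold comb
    refine Prod.ext (by simp) ?_
    funext l
    simp only
    by_cases hl : ∃ k, l = ν k
    · obtain ⟨k, rfl⟩ := hl
      rw [V_at hν, V_at hν, V_at hν]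
      fin_cases k <;> simp
    · push Not at hl
      rw [V_off _ hl, V_off _ hl, V_off _ hl]
      simp
  have hVV : ∀ (m m' : ℤ) (v v' : Fin 9 → ℤ), dot (m, V ν v) (m', V ν v') = m * m' - ∑ k, v k * v' k := by
    intro m m' v v'
    unfold dot
    simp only
    rw [sum_V]
    congr 1
    exact Finset.sum_congr rfl fun k _ => by rw [V_at hν]
  have hαα : dot α α = -2 := by
    rw [hα', hVV]
    decide
  have hαδ : dot α δ = 0 := by
    rw [hα', hδ, hVV]
    decide
  have hδα : dot δ α = 0 := by rw [dot_comm, hαδ]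
  have hδδ : dot δ δ = 0 := by
    rw [hδ, hVV]
    decide
  have hxα : dot x α = a := by
    rw [hα', ha]
    unfold dot
    simp only
    rw [sum_V]
    simp [Fin.sum_univ_succ]
    ring
  have hxδ : dot x δ = N := by
    rw [hδ, hN]
    unfold dot
    simp only
    rw [sum_V]
    simp only [mul_one]
    ring
  rw [← hα', ← hδ]
  rw [← hα'] at hα
  have hsα : ∀ y, Carries y (comb y (dot y α) α) := by
    intro y
    have := root_refl h01 (β := α) (by rw [← hα]; exact Relation.ReflTransGen.refl) y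
    exact this
  have hsβ : ∀ y, Carries y (comb y (dot y (comb δ 1 α)) (comb δ 1 α)) := by
    intro y
    have h := root_refl h81.symm (β := comb δ 1 α) (by rw [← hβ]; exact cubic_root hν) y
    exact h
  induction n with
  | zero =>
    have : comb (comb x ((0 : ℕ) * N) α) ((0 : ℕ) ^ 2 * N - (0 : ℕ) * a) δ = x := by
      unfold comb
      refine Prod.ext (by simp) ?_
      funext l
      simp
    rw [this]
    exact Relation.ReflTransGen.refl
  | succ n ih =>
    refine Relation.ReflTransGen.trans ih ?_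
    obtain ⟨y, hy⟩ : ∃ y, y = comb (comb x (↑n * N) α) (↑n ^ 2 * N - ↑n * a) δ := ⟨_, rfl⟩
    rw [← hy]
    refine Relation.ReflTransGen.trans (hsα y) ?_
    have h2 := hsβ (comb y (dot y α) α)
    have e : comb (comb x ((n + 1 : ℕ) * N) α) ((n + 1 : ℕ) ^ 2 * N - (n + 1 : ℕ) * a) δ =
        comb (comb y (dot y α) α) (dot (comb y (dot y α) α) (comb δ 1 α)) (comb δ 1 α) := by
      rw [hy]
      simp only [dot_comb_left, dot_comb_right, hαα, hαδ, hδα, hδδ, hxα, hxδ]
      unfold comb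
      refine Prod.ext ?_ ?_
      · simp only
        push_cast
        ring
      · funext l
        simp only
        push_cast
        ring
    rw [e]
    exact h2

theorem irr_perm {s : ℕ} {P : Fin s → Fin 2 → ℂ}
    (hP : AlgebraicIndependent ℚ (fun ij : Fin s × Fin 2 => P ij.1 ij.2)) {e : ℕ}
    {u : Fin s → ℕ} (h : Irr P e u) (σ : Equiv.Perm (Fin s)) : Irr P e (fun l => u (σ l)) := by
  obtain ⟨G, h1, h2, h3⟩ := h.ex
  obtain ⟨G', a1, a2, a3⟩ := exists_conj hP hP h1 h2 h3 σ
  refine ⟨⟨G', a1, a2, a3⟩, ?_⟩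
  have e1 : SH.ip e (fun l => u (σ l)) e (fun l => u (σ l)) = SH.ip e u e u := by
    unfold SH.ip
    rw [Equiv.sum_comp σ (fun l => (u l : ℤ) * u l)]
  have e2 : SH.kk e (fun l => u (σ l)) = SH.kk e u := by
    unfold SH.kk
    rw [Equiv.sum_comp σ (fun l => (u l : ℤ))]
  rw [e1, e2]
  exact h.ne

/-- one step for two classes at once -/
theorem step_par {s : ℕ} {P : Fin s → Fin 2 → ℂ}
    (hP : AlgebraicIndependent ℚ (fun ij : Fin s × Fin 2 => P ij.1 ij.2)) {a b : ℤ × (Fin s → ℤ)}
    (hab : Move a b) {d : ℕ} {w : Fin s → ℕ}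
    (h : Irr P d w) : ∃ (e : ℕ) (u : Fin s → ℕ), Irr P e u ∧ dot (toCls e u) b = dot (toCls d w) a ∧
      SH.ip e u e u = SH.ip d w d w := by
  rcases hab with ⟨i, hi, rfl⟩ | ⟨σ, rfl⟩
  · have p := h.ps hP hi
    refine ⟨SH.cd i d w, Pool.Agent.W609.CR.wcr d i w, h.step hP hi, ?_, SH.ip_cr hi p p⟩
    have h1 := bil_refl hi (cls d w) a
    rw [refl_cls hi p] at h1
    exact h1
  · refine ⟨d, fun l => w (σ l), irr_perm hP h σ, ?_, ?_⟩
    · unfold dot toCls
      show (d : ℤ) * a.1 - ∑ l, (w (σ l) : ℤ) * a.2 (σ l) = (d : ℤ) * a.1 - ∑ l, (w l : ℤ) * a.2 l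
      rw [Equiv.sum_comp σ (fun l => (w l : ℤ) * a.2 l)]
    · unfold SH.ip
      rw [Equiv.sum_comp σ (fun l => (w l : ℤ) * w l)]

theorem carry_irr {s : ℕ} {P : Fin s → Fin 2 → ℂ}
    (hP : AlgebraicIndependent ℚ (fun ij : Fin s × Fin 2 => P ij.1 ij.2)) {d : ℕ}
    {w : Fin s → ℕ} (h : Irr P d w) {b : ℤ × (Fin s → ℤ)} (hb : Carries (toCls d w) b) :
    ∃ (e : ℕ) (u : Fin s → ℕ), b = toCls e u ∧ Irr P e u := by
  unfold Carries at hb
  induction hb with
  | refl => exact ⟨d, w, rfl, h⟩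
  | @tail b c _ hbc ih =>
    obtain ⟨e, u, rfl, h1⟩ := ih
    rcases hbc with ⟨i, hi, rfl⟩ | ⟨σ, rfl⟩
    · have p := h1.ps hP hi
      exact ⟨SH.cd i e u, Pool.Agent.W609.CR.wcr e i u, refl_cls hi p, h1.step hP hi⟩
    · exact ⟨e, fun l => u (σ l), rfl, irr_perm hP h1 σ⟩

theorem pair {s : ℕ} {P : Fin s → Fin 2 → ℂ}
    (hP : AlgebraicIndependent ℚ (fun ij : Fin s × Fin 2 => P ij.1 ij.2)) {d : ℕ}
    {w : Fin s → ℕ} (h : Irr P d w) {e : ℕ} {u : Fin s → ℕ} (h' : Irr P e u)
    (hne : (d, w) ≠ (e, u)) : 0 ≤ SH.ip d w e u := by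
  obtain ⟨C, h1, h2, h3⟩ := h.ex
  obtain ⟨G, g1, g2, g3⟩ := h'.ex
  exact Pool.Agent.R355.NegCount.ip_nonneg (SH.inj_of_alg hP) g1 g2 g3 h1 h2 h3 hne

/-- one step, in the other direction -/
theorem step_symm' {s : ℕ} {a b : ℤ × (Fin s → ℤ)} (hab : Move a b) : Move b a := by
  rcases hab with ⟨i, hi, rfl⟩ | ⟨σ, rfl⟩
  · exact Or.inl ⟨i, hi, (refl_refl i a).symm⟩
  · refine Or.inr ⟨σ.symm, ?_⟩
    refine Prod.ext rfl ?_
    funext l
    show a.2 l = a.2 (σ (σ.symm l))
    rw [Equiv.apply_symm_apply]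

theorem swap_sum {s : ℕ} (w : Fin s → ℤ) {i j : Fin s} (hij : i ≠ j) :
    ∑ l, w l * w (Equiv.swap i j l) = ∑ l, w l * w l - (w i - w j) ^ 2 := by
  have h1 : ∑ l, (w l - w (Equiv.swap i j l)) ^ 2 = 2 * (w i - w j) ^ 2 := by
    rw [Finset.sum_eq_add i j hij]
    · rw [Equiv.swap_apply_left, Equiv.swap_apply_right]
      ring
    · rintro l - ⟨h1, h2⟩
      rw [Equiv.swap_apply_of_ne_of_ne h1 h2, sub_self]
      ring
    · exact fun h => absurd (Finset.mem_univ _) h
    · exact fun h => absurd (Finset.mem_univ _) h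
  have h2 : ∑ l, w (Equiv.swap i j l) * w (Equiv.swap i j l) = ∑ l, w l * w l :=
    Equiv.sum_comp (Equiv.swap i j) (fun l => w l * w l)
  have h3 : ∑ l, (w l - w (Equiv.swap i j l)) ^ 2 = ∑ l, w l * w l +
      ∑ l, w (Equiv.swap i j l) * w (Equiv.swap i j l) -
      2 * ∑ l, w l * w (Equiv.swap i j l) := by
    rw [Finset.mul_sum, ← Finset.sum_add_distrib, ← Finset.sum_sub_distrib]
    exact Finset.sum_congr rfl fun l _ => by ring
  rw [h2, h1] at h3
  linarith

theorem root_gap {s : ℕ} {P : Fin s → Fin 2 → ℂ}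
    (hP : AlgebraicIndependent ℚ (fun ij : Fin s × Fin 2 => P ij.1 ij.2)) {i j : Fin s}
    (hij : i ≠ j) {α : ℤ × (Fin s → ℤ)} (hα : Carries (0, Pi.single j 1 - Pi.single i 1) α) :
    ∀ {d : ℕ} {w : Fin s → ℕ}, Irr P d w → dot (toCls d w) α = 0 ∨
      -SH.ip d w d w ≤ dot (toCls d w) α ^ 2 := by
  unfold Carries at hα
  induction hα with
  | refl =>
    intro d w h
    have e0 : dot (toCls d w) (0, Pi.single j 1 - Pi.single i 1) = (w i : ℤ) - w j := by
      unfold dot toCls
      simp only [mul_zero, Pi.sub_apply, mul_sub, Finset.sum_sub_distrib]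
      rw [Finset.sum_eq_single j (fun b _ hb => by rw [Pi.single_eq_of_ne hb, mul_zero])
        (fun h => absurd (Finset.mem_univ _) h),
        Finset.sum_eq_single i (fun b _ hb => by rw [Pi.single_eq_of_ne hb, mul_zero])
        (fun h => absurd (Finset.mem_univ _) h), Pi.single_eq_same, Pi.single_eq_same]
      ring
    rw [e0]
    by_cases hw : w i = w j
    · left
      rw [hw, sub_self]
    · right
      have h1 : (d, w) ≠ (d, fun l => w (Equiv.swap i j l)) := by
        intro h2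
        have h3 := congrFun (congrArg Prod.snd h2) i
        simp only [Equiv.swap_apply_left] at h3
        exact hw h3
      have h2 := pair hP h (irr_perm hP h (Equiv.swap i j)) h1
      unfold SH.ip at h2 ⊢
      rw [swap_sum (fun l => (w l : ℤ)) hij] at h2
      linarith
  | @tail b c _ hbc ih =>
    intro d w h
    obtain ⟨e, u, h1, h2, h3⟩ := step_par hP (step_symm' hbc) h
    have h4 := ih h1
    rw [h2, h3] at h4
    exact h4

/-- Nine points. -/
theorem nine {s : ℕ} {P : Fin s → Fin 2 → ℂ}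
    (hP : AlgebraicIndependent ℚ (fun ij : Fin s × Fin 2 => P ij.1 ij.2)) {d : ℕ}
    {w : Fin s → ℕ} (h : Irr P d w) {ν : Fin 9 → Fin s} (hν : Function.Injective ν) {N : ℤ}
    (hN : N = 3 * (d : ℤ) - ∑ k, (w (ν k) : ℤ)) :
    0 ≤ N ∧ (N = 0 → w (ν 0) ≤ w (ν 1)) ∧ (N ≠ 0 → -SH.ip d w d w ≤ N ^ 2) := by
  obtain ⟨a, ha⟩ : ∃ a : ℤ, a = (w (ν 0) : ℤ) - w (ν 1) := ⟨_, rfl⟩
  have hT := fun n : ℕ => translate hν (toCls d w) (N := N) (a := a) hN ha n
  have hdeg : ∀ n : ℕ, 0 ≤ (d : ℤ) + 3 * ((n : ℤ) ^ 2 * N - n * a) := by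
    intro n
    obtain ⟨e, u, he, -⟩ := carry_irr hP h (hT n)
    have h1 := congrArg Prod.fst he
    have h2 : (d : ℤ) + n * N * 0 + ((n : ℤ) ^ 2 * N - n * a) * 3 = (e : ℤ) := h1
    have h3 : (0 : ℤ) ≤ e := Int.natCast_nonneg _
    linarith
  have hd0 : (0 : ℤ) ≤ d := Int.natCast_nonneg _
  have hN0 : 0 ≤ N := by
    by_contra hcon
    push Not at hcon
    have h1 := hdeg (d + a.natAbs + 1)
    have h2 : (0 : ℤ) ≤ (a.natAbs : ℤ) := Int.natCast_nonneg _
    have h3 : -a ≤ (a.natAbs : ℤ) := by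
      have := neg_abs_le a
      rw [Int.natCast_natAbs]
      linarith
    push_cast at h1
    obtain ⟨b, hb⟩ : ∃ b : ℤ, b = (a.natAbs : ℤ) := ⟨_, rfl⟩
    rw [Int.natCast_natAbs] at hb
    rw [← hb] at h1
    rw [Int.natCast_natAbs, ← hb] at h2 h3
    obtain ⟨n, hn⟩ : ∃ n : ℤ, n = (d : ℤ) + b + 1 := ⟨_, rfl⟩
    rw [← hn] at h1
    have hn0 : 0 < n := by linarith
    have h4 : n ^ 2 * N ≤ -(n ^ 2) := by nlinarith [sq_nonneg n]
    have h5 : -(n * a) ≤ n * b := by nlinarith
    have h6 : 0 ≤ (d : ℤ) + 3 * (-(n ^ 2) + n * b) := by linarith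
    have h7 : -(n ^ 2) + n * b = -(n * ((d : ℤ) + 1)) := by
      rw [hn]
      ring
    rw [h7] at h6
    have h8 : (d : ℤ) + 1 ≤ n := by linarith
    nlinarith
  refine ⟨hN0, fun h0 => ?_, fun hne => ?_⟩
  · have h1 := hdeg (d + 1)
    rw [h0] at h1
    by_contra hcon
    push Not at hcon
    have h2 : 1 ≤ a := by
      rw [ha]
      omega
    push_cast at h1
    nlinarith
  · obtain ⟨e, u, he, h'⟩ := carry_irr hP h (hT 1)
    have h01 : ν 0 ≠ ν 1 := fun h => absurd (hν h) (by decide)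
    have hdot : dot (toCls d w) (toCls e u) = SH.ip d w d w + N ^ 2 := by
      rw [← he, dot_comb_right, dot_comb_right]
      have e1 : dot (toCls d w) (toCls d w) = SH.ip d w d w := rfl
      have e2 : dot (toCls d w) (0, V ν ![-1, 1, 0, 0, 0, 0, 0, 0, 0]) = a := by
        rw [ha]
        unfold dot
        simp only
        rw [sum_V]
        simp [Fin.sum_univ_succ, toCls]
        ring
      have e3 : dot (toCls d w) (3, V ν fun _ => 1) = N := by
        rw [hN]
        unfold dot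
        simp only
        rw [sum_V]
        simp only [mul_one]
        unfold toCls
        simp only
        ring
      rw [e1, e2, e3]
      push_cast
      ring
    by_cases heq : (d, w) = (e, u)
    · exfalso
      obtain ⟨rfl, rfl⟩ := Prod.mk.inj heq
      have e1 : dot (toCls d w) (toCls d w) = SH.ip d w d w := rfl
      rw [e1] at hdot
      have : N ^ 2 = 0 := by linarith
      exact hne (pow_eq_zero_iff (by norm_num) |>.1 this)
    · have h2 : 0 ≤ SH.ip d w e u := pair hP h h' heq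
      have e1 : dot (toCls d w) (toCls e u) = SH.ip d w e u := rfl
      rw [← e1, hdot] at h2
      linarith

/-- Nine points and a negative curve. -/
theorem nine_pos {r : ℕ} {P : Fin (r + 4) → Fin 2 → ℂ}
    (hP : AlgebraicIndependent ℚ (fun ij : Fin (r + 4) × Fin 2 => P ij.1 ij.2)) {d : ℕ}
    {w : Fin (r + 4) → ℕ} (h : Irr P d w) (hneg : SH.ip d w d w < 0) {ν : Fin 9 → Fin (r + 4)}
    (hν : Function.Injective ν) {N : ℤ} (hN : N = 3 * (d : ℤ) - ∑ k, (w (ν k) : ℤ)) :
    0 < N ∧ -SH.ip d w d w ≤ N ^ 2 := by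
  classical
  obtain ⟨h1, h2, h3⟩ := nine hP h hν hN
  rcases eq_or_ne N 0 with h0 | h0
  swap
  · exact ⟨lt_of_le_of_ne h1 h0.symm, h3 h0⟩
  exfalso
  -- all nine multiplicities are equal
  have hle : ∀ σ : Equiv.Perm (Fin 9), w (ν (σ 0)) ≤ w (ν (σ 1)) := by
    intro σ
    refine (nine hP h (hν.comp σ.injective) (N := N) ?_).2.1 h0
    rw [hN]
    congr 1
    exact (Equiv.sum_comp σ (fun k => (w (ν k) : ℤ))).symm
  have heq : ∀ k, w (ν k) = w (ν 0) := by
    intro k
    by_cases hk : k = 0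
    · rw [hk]
    · have s1 : Equiv.swap 1 k 0 = 0 :=
        Equiv.swap_apply_of_ne_of_ne (by decide) (Ne.symm hk)
      have s2 : Equiv.swap 1 k 1 = k := Equiv.swap_apply_left _ _
      have a1 := hle (Equiv.swap 1 k)
      rw [s1, s2] at a1
      have a2 := hle (Equiv.swap 1 k * Equiv.swap 0 1)
      rw [Equiv.Perm.mul_apply, Equiv.Perm.mul_apply, Equiv.swap_apply_left,
        Equiv.swap_apply_right, s1, s2] at a2
      exact le_antisymm a2 a1
  obtain ⟨t, ht⟩ : ∃ t, t = w (ν 0) := ⟨_, rfl⟩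
  have hd : d = 3 * t := by
    have h4 : ∑ k, (w (ν k) : ℤ) = 9 * (t : ℤ) := by
      rw [Finset.sum_congr rfl fun k _ => by rw [heq k, ← ht], Finset.sum_const, Finset.card_univ,
        Fintype.card_fin]
      simp
    rw [h4, h0] at hN
    omega
  obtain ⟨T, hT⟩ : ∃ T : Finset (Fin (r + 4)), T = Finset.univ.image ν := ⟨_, rfl⟩
  have hTs : ∑ l ∈ T, w l ^ 2 = 9 * t ^ 2 := by
    rw [hT, Finset.sum_image fun a _ b _ hab => hν hab,
      Finset.sum_congr rfl fun k _ => by rw [heq k, ← ht], Finset.sum_const, Finset.card_univ,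
      Fintype.card_fin, smul_eq_mul]
  have hsum : ∑ l, w l ^ 2 = 9 * t ^ 2 + ∑ l ∈ Tᶜ, w l ^ 2 := by
    rw [← hTs, Finset.sum_add_sum_compl]
  obtain ⟨G, g1, g2, g3⟩ := h.ex
  have hsmall : ∀ l ∈ Tᶜ, w l ≤ 1 := by
    intro l hl
    by_contra hcon
    push Not at hcon
    have h4 := xu hP g1 g2 g3 (k := l) (by omega)
    have h5 : w l ^ 2 ≤ ∑ j ∈ Tᶜ, w j ^ 2 :=
      Finset.single_le_sum (f := fun l => w l ^ 2) (fun j _ => Nat.zero_le _) hl
    rw [hsum, hd] at h4
    nlinarith
  have hcard : (Finset.univ.filter fun j => 3 < w j).card ≤ 9 := by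
    have h4 : (Finset.univ.filter fun j => 3 < w j) ⊆ T := by
      intro j hj
      by_contra hjT
      have h5 := hsmall j (Finset.mem_compl.2 hjT)
      have h6 := (Finset.mem_filter.1 hj).2
      omega
    refine (Finset.card_le_card h4).trans ?_
    rw [hT]
    refine Finset.card_image_le.trans ?_
    rw [Finset.card_univ, Fintype.card_fin]
  exact h.ne (Pool.Agent.TH167.T3.neg9 hcard hP g1 g2 g3 hneg)

/-- The intersection number with a `(-1)`-curve. -/
theorem exc_gap {r : ℕ} {P : Fin (r + 4) → Fin 2 → ℂ}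
    (hP : AlgebraicIndependent ℚ (fun ij : Fin (r + 4) × Fin 2 => P ij.1 ij.2)) {d : ℕ}
    {w : Fin (r + 4) → ℕ} (h : Irr P d w) {e : ℕ} {u : Fin (r + 4) → ℕ}
    {E : MvPolynomial (Fin 3) ℂ} (hE : SH.Exc P E e u) :
    SH.ip d w e u = 0 ∨ -SH.ip d w d w ≤ SH.ip d w e u := by
  classical
  obtain ⟨i, j, hij, hch⟩ := exc_chain e P hP E u hE
  obtain ⟨m, hm⟩ : ∃ m : Fin (r + 4), m ∉ ({i, j} : Finset (Fin (r + 4))) := by
    by_contra hcon
    push Not at hcon
    have h1 : (Finset.univ : Finset (Fin (r + 4))) ⊆ {i, j} := fun m _ => hcon m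
    have h2 := Finset.card_le_card h1
    have h3 := Finset.card_le_two (a := i) (b := j)
    rw [Finset.card_univ, Fintype.card_fin] at h2
    omega
  simp only [Finset.mem_insert, Finset.mem_singleton, not_or] at hm
  obtain ⟨hmi, hmj⟩ := hm
  have hstep : Step (cls 1 fun l => if l = i ∨ l = j then 1 else 0)
      ((0 : ℤ), fun l : Fin (r + 4) => if l = m then (-1 : ℤ) else 0) := by
    refine ⟨![i, j, m], ?_, ?_⟩
    · intro a b hab
      fin_cases a <;> fin_cases b <;> simp_all
    · unfold Pool.Agent.TH442.NF.refl cls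
      refine Prod.ext ?_ ?_
      · simp [hmi, hmj]
      · funext x
        by_cases h1 : x = i <;> by_cases h2 : x = j <;> by_cases h4 : x = m <;> simp_all
  have hch2 : Ch (cls e u) ((0 : ℤ), fun l : Fin (r + 4) => if l = m then (-1 : ℤ) else 0) :=
    Relation.ReflTransGen.tail hch hstep
  obtain ⟨c', h1, h2⟩ := hch2.par (cls d w)
  obtain ⟨e', u', rfl, h3, h4⟩ := h.orbit hP h1
  have h5 : bil ((0 : ℤ), fun l : Fin (r + 4) => if l = m then (-1 : ℤ) else 0) (cls e' u') =
      u' m := by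
    unfold bil cls
    simp
  have h6 : bil (cls e u) (cls d w) = SH.ip d w e u := by
    unfold bil cls SH.ip
    simp only
    rw [mul_comm, Finset.sum_congr rfl fun l _ => mul_comm ((u l : ℤ)) (w l : ℤ)]
  rw [h5, h6] at h2
  rw [← h2]
  rcases Nat.eq_zero_or_pos (u' m) with h7 | h7
  · left
    rw [h7]
    rfl
  · right
    obtain ⟨G, g1, g2, g3⟩ := h3.ex
    have h8 := xu hP g1 g2 g3 (k := m) h7
    rw [← h4]
    unfold SH.ip
    have h9 : ∑ l, (u' l : ℤ) * u' l = ((∑ l, u' l ^ 2 : ℕ) : ℤ) := by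
      push_cast
      exact Finset.sum_congr rfl fun l _ => by ring
    rw [h9]
    have h10 : ((∑ l, u' l ^ 2 : ℕ) : ℤ) ≤ ((e' ^ 2 + u' m : ℕ) : ℤ) := by exact_mod_cast h8
    push_cast at h10 ⊢
    linarith

/-- **Separation in the orbit.** Let `s ≥ 4` and let `D = (d; w)`, `D' = (e; u)` be the classes of two
irreducible curves at very general points, not `(-1)`-curves. For every class `c` in the orbit of `D'`
either `c = D` or `D c ≥ 0`. Every root `α` has `D α = 0` or `(D α) ^ 2 ≥ -D ^ 2`; in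
particular this holds for `D α = w i - w j` and `D α = d - w i - w j - w l`. If `D ^ 2 < 0` then for any
nine distinct indices `3 d - ∑ w (ν k)` is positive and its square is at least `-D ^ 2`. Every
`(-1)`-curve has the intersection number `0` or at least `-D ^ 2` with `D`. -/
theorem result (s : ℕ) (hs : 4 ≤ s) :
    ∃ Z : ℕ → MvPolynomial (Fin s × Fin 2) ℂ, (∀ n, Z n ≠ 0) ∧
      ∀ P : Fin s → Fin 2 → ℂ,
        (∀ n, MvPolynomial.eval (fun ij : Fin s × Fin 2 => P ij.1 ij.2) (Z n) ≠ 0) →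
        ∀ (d : ℕ) (w : Fin s → ℕ) (C : MvPolynomial (Fin 3) ℂ), Curve P C d w →
          ¬ MinusOne P C d w →
          (∀ (e : ℕ) (u : Fin s → ℕ) (G : MvPolynomial (Fin 3) ℂ), Curve P G e u →
            ¬ MinusOne P G e u → ∀ c, Carries (toCls e u) c → c = toCls d w ∨
              0 ≤ dot (toCls d w) c) ∧
          (∀ α, Root α → dot (toCls d w) α = 0 ∨ -inter d w d w ≤ dot (toCls d w) α ^ 2) ∧
          (∀ i j l : Fin s, i ≠ j → i ≠ l → j ≠ l → (w i + w j + w l = d ∨
            -inter d w d w ≤ ((d : ℤ) - w i - w j - w l) ^ 2)) ∧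
          (inter d w d w < 0 → ∀ ν : Fin 9 → Fin s, Function.Injective ν →
            0 < 3 * (d : ℤ) - ∑ k, (w (ν k) : ℤ) ∧
            -inter d w d w ≤ (3 * (d : ℤ) - ∑ k, (w (ν k) : ℤ)) ^ 2) ∧
          (∀ (e : ℕ) (u : Fin s → ℕ) (E : MvPolynomial (Fin 3) ℂ), MinusOne P E e u →
            inter d w e u = 0 ∨ -inter d w d w ≤ inter d w e u) := by
  obtain ⟨r, rfl⟩ : ∃ r, s = r + 4 := ⟨s - 4, by omega⟩
  obtain ⟨Z, hZ, h⟩ := SH.exists_fam (Fin (r + 4) × Fin 2)
  refine ⟨Z, hZ, fun P hP0 d w C hC hne => ?_⟩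
  have hP := (h _).1 hP0
  have hI : ∀ {e : ℕ} {u : Fin (r + 4) → ℕ} {G : MvPolynomial (Fin 3) ℂ}, Curve P G e u →
      ¬ MinusOne P G e u → Irr P e u := by
    intro e u G hG hGn
    obtain ⟨h1, h2, h3⟩ := SH.curve_iff.1 hG
    exact ⟨⟨G, h1, h2, h3⟩, fun h0 =>
      hGn ⟨hG, by rw [SH.inter_eq, h0.1], by rw [SH.interK_eq, h0.2]⟩⟩
  have hD := hI hC hne
  have hroot : ∀ α, Root α → dot (toCls d w) α = 0 ∨
      -inter d w d w ≤ dot (toCls d w) α ^ 2 := by
    rintro α ⟨i, j, hij, hα⟩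
    exact root_gap hP hij hα hD
  refine ⟨fun e u G hG hGn c hc => ?_, hroot, fun i j l hij hil hjl => ?_,
    fun hneg ν hν => nine_pos hP hD hneg hν rfl,
    fun e u E hE => exc_gap hP hD (SH.minusOne_iff.1 hE)⟩
  · obtain ⟨e', u', rfl, h'⟩ := carry_irr hP (hI hG hGn) hc
    by_cases heq : (d, w) = (e', u')
    · left
      obtain ⟨rfl, rfl⟩ := Prod.mk.inj heq
      rfl
    · right
      exact pair hP hD h' heq
  · -- a fourth index
    obtain ⟨m, hm⟩ : ∃ m : Fin (r + 4), m ∉ ({i, j, l} : Finset (Fin (r + 4))) := by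
      by_contra hcon
      push Not at hcon
      have h1 : (Finset.univ : Finset (Fin (r + 4))) ⊆ {i, j, l} := fun m _ => hcon m
      have h2 := Finset.card_le_card h1
      have h3 := Finset.card_le_three (a := i) (b := j) (c := l)
      rw [Finset.card_univ, Fintype.card_fin] at h2
      omega
    simp only [Finset.mem_insert, Finset.mem_singleton, not_or] at hm
    obtain ⟨hmi, hmj, hml⟩ := hm
    have hα : Root (1, fun x : Fin (r + 4) => if x = i ∨ x = j ∨ x = l then (1 : ℤ) else 0) := by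
      refine ⟨m, l, hml, Relation.ReflTransGen.single (Or.inl ⟨![i, j, m], ?_, ?_⟩)⟩
      · intro a b hab
        fin_cases a <;> fin_cases b <;> simp_all
      · unfold reflect
        refine Prod.ext ?_ ?_
        · simp [hil, hjl, hml, Ne.symm hmi, Ne.symm hmj]
        · funext x
          by_cases h1 : x = i <;> by_cases h2 : x = j <;> by_cases h3 : x = l <;>
            by_cases h4 : x = m <;> simp_all
    have h5 := hroot _ hα
    have h6 : dot (toCls d w) (1, fun x : Fin (r + 4) => if x = i ∨ x = j ∨ x = l then (1 : ℤ) else 0) =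
        (d : ℤ) - w i - w j - w l := by
      unfold dot toCls
      have h7 : ∀ x : Fin (r + 4), (w x : ℤ) * (if x = i ∨ x = j ∨ x = l then (1 : ℤ) else 0) =
          (if x = i then (w x : ℤ) else 0) + ((if x = j then (w x : ℤ) else 0) +
            (if x = l then (w x : ℤ) else 0)) := by
        intro x
        by_cases h1 : x = i <;> by_cases h2 : x = j <;> by_cases h3 : x = l <;> simp_all
      simp only [h7, Finset.sum_add_distrib, Finset.sum_ite_eq', Finset.mem_univ, if_true, mul_one]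
      ring
    rw [h6] at h5
    rcases h5 with h5 | h5
    · left
      have : ((w i + w j + w l : ℕ) : ℤ) = (d : ℤ) := by
        push_cast
        linarith
      exact_mod_cast this
    · exact Or.inr h5

end Pool.Agent.Results.MP_d3e5c7_ag.SeparatedOrbits
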